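import Pool.Agent.L7h85.HN.Almost

/-!
# The numerical Hodge standard conjecture over all fields for abelian varieties with almost all slope
types: the proportion of the exceptional types is at most a constant divided by the dimension

Let `K i` be finitely many CM fields, of degrees `2 g i`, which are pairwise independent: for `i ≠ i'`
and all complex embeddings `φ` of `K i` and `ψ` of `K i'` some automorphism of `ℂ` is the identity
on `φ (K i)` and the complex conjugation on `ψ (K i')` (this is no condition for one field). Let `M i`
be a function with nonzero integral values on the complex embeddings of `K i`, invariant under complex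
conjugation. A CM type `Φ i` of `K i` (one of `2 ^ (g i)`), `M i` and a real number `c ≠ 0` prescribe
the slopes `(a + c M) / 2` (at the embeddings in `Φ i`) and `(a - c M) / 2` (outside of `Φ i`) of a
Weil number in `K i`, for a place of the algebraic closure of `ℚ` above `p` (given by `ν`). If `M = 1`
and `c = a` this is the ordinary case.

For a family `(Φ i)` of types let `Z` be an abelian variety over a finite field whose simple factors
belong to different ones of the fields `K i`, with the CM field `K i` and the slopes prescribed by
`Φ i`, `M i` and some `c` (`FactorsOfTypes`), `Y` any product of powers of factors of `Z` and of a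
supersingular abelian variety (up to isogeny over an algebraic closure), and `X` **any polarized
abelian variety over any field of characteristic `p`** whose specialization is `Y`. The family is
*exceptional* (`¬ Holds ν K M Φ`) if the numerical Hodge standard conjecture fails for some such `X`.

**Theorem.** Suppose that there are only finitely many minimal Galois-stable spaces of odd rational
functions on the embeddings of `K i`, for each `i` (`minimalSpaces`; this says that the
representation is multiplicity free). The number of the exceptional families is at most

`2 ^ (∑ i, g i) * (∑ ρ₂ (K i) + ∑ ρ₁ (K i) ρ₁ (K i'))`,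

where the first sum is over the fields with `g i > 5`, the second one over the pairs `{i, i'}` of such
fields, and if `N d` is the number of the minimal spaces of dimension `d` (`numSpaces`) then
`ρ₁ = ∑_{d ≥ 1} N d (2 d / (π g)) ^ (d / 2)` (`boundOne`) and
`ρ₂ = binomial (N 1, 2) * 4 / (π g) + ∑_{d ≥ 2} N d (2 d / (π g)) ^ (d / 2)` (`boundTwo`).

Second part: if the field `K` is abelian over `ℚ`, or if any two complex embeddings of `K` are exchanged
by some automorphism of `ℂ`, then there are only finitely many minimal spaces, and
`ρ₂ ≤ binomial (N 1, 2) * 4 / (π g) + 2 (N 2 + 1) / g + 3 N 3 / g ^ (3 / 2)`. (`N 1` is at most the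
number of the imaginary quadratic subfields of `K`.) So for one field the proportion of the
exceptional types is at most a constant divided by `g`, if `N 1`, `N 2` and `N 3` are bounded. (If the
space of the odd functions is the sum of a line and of one irreducible space of dimension `g - 1` then
`ρ₂ = (2 (g - 1) / (π g)) ^ ((g - 1) / 2)` is exponentially small, while `ρ₁` is about `√(2 / (π g))`.)

In `Pool.Agent.Results.MP_ffcd14_ag.AlmostAllSlopeTypes` the proportion of the types for which, over
finite fields, the conjecture was not proved is of the order `1 / √g`: these are the types with some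
relation, and if `K` contains an imaginary quadratic field then there are so many types with a
relation and with exotic Tate classes (of Weil type) in large codimensions. Here we prove the
conjecture for the types with one relation (up to factors), with the product formula for the Hilbert
symbol (`Pool.Agent.Results.MP_ffcd14_ag.QuadraticRelations`), count the types with two
independent relations, and pass to arbitrary fields.

**The model.** `RedAV` (with `CMAV`, `IsFrobenius`) describes the abelian varieties over finite fields, up to
isogeny, by CM types with Weil numbers (Honda, Tate). `IsCompatible Ω C`: the classes of cycles in the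
l-adic theories and in crystalline cohomology (`l = p`), with known properties (formal properties,
Lefschetz, Markman, Tate; the intersection number with a rational Hodge class of the lifting is in the
field of `l`-adic numbers); `IsRosatiPositive` (Weil), `AreTate`. `A` is the ring of algebraic cycles on
`X` modulo homological equivalence (`IsCycleRing`; `LefschetzA` is a theorem of Lieberman and
Kleiman), and `Specializes` says that `X` specializes to `Y`, with its polarization. `NumHodge` is the
statement of the problem for `X`: all codimensions, primitivity modulo numerical equivalence. No
conjecture is assumed.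
-/

set_option autoImplicit false

namespace Pool.Agent.Results.MP_c0b458_ag.AlmostAllTypes

open NumberField Module Pool.Agent.H204R3.CM Pool.Agent.TH170.MF Pool.Agent.L7h85.HN

/-- **The numerical Hodge standard conjecture over all fields of characteristic `p`, for almost all
families of slope types.** -/
theorem result :
    (∀ (p : ℕ) [Fact p.Prime] (ν : PadicAlgCl p ≃+* ℂ) {I : Type} [Fintype I] (K : I → Type)
      [∀ i, Field (K i)] [∀ i, NumberField (K i)] [∀ i, IsCMField (K i)]
      (M : ∀ i, (K i →+* ℂ) → ℤ) (g : I → ℕ), AreIndependent K →
      (∀ i φ, M i (ComplexEmbedding.conjugate φ) = M i φ) → (∀ i φ, M i φ ≠ 0) →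
      (∀ i, finrank ℚ (K i) = 2 * g i) → (∀ i, (minimalSpaces (K i)).Finite) →
      (({Φ : ∀ i, Set (K i →+* ℂ) | (∀ i, IsCMType (Φ i)) ∧ ¬ Holds ν K M Φ}.ncard : ℕ) : ℝ) ≤
        2 ^ (∑ i, g i) * (∑ i with 5 < g i, boundTwo (K i) (g i) +
          ∑ T ∈ (Finset.univ.filter fun i => 5 < g i).powersetCard 2,
            ∏ i ∈ T, boundOne (K i) (g i))) ∧
    ∀ (K : Type) [Field K] [NumberField K] [IsCMField K] (g : ℕ), finrank ℚ K = 2 * g →
      (IsAbelianGalois ℚ K ∨ ∀ φ ψ : K →+* ℂ, ∃ σ : ℂ ≃+* ℂ,
        (σ : ℂ →+* ℂ).comp φ = ψ ∧ (σ : ℂ →+* ℂ).comp ψ = φ) →
          (minimalSpaces K).Finite ∧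
          boundTwo K g ≤ ((numSpaces K 1).choose 2 : ℝ) * (4 / (Real.pi * g)) +
            2 * (numSpaces K 2 + 1) / g + 3 * numSpaces K 3 / (g * √g) :=
  ⟨fun _ _ _ _ _ _ _ _ _ _ _ hind hM hM0 hg hfin =>
    ncard_exceptional_le hind hM hM0 hg hfin,
    fun K _ _ _ _ hg h => ⟨finite_minimalSpaces K (mf_of h), boundTwo_le (mf_of h) hg⟩⟩

end Pool.Agent.Results.MP_c0b458_ag.AlmostAllTypes
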