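import Pool.Agent.L7h85.HN.Small

/-!
# The numerical Hodge standard conjecture for abelian varieties of dimension at most five and for all
products of elliptic curves and abelian surfaces, over all fields

Let `k` be any field of characteristic `p` and `X` an abelian variety over `k` with a polarization
`D`, of dimension `n ≤ 5`, or isogenous over an extension to a product of **any number** of elliptic
curves and abelian surfaces. Then the numerical Hodge standard conjecture holds for `X` and `D`: for
all `2 j + m = n` the form `(-1) ^ j deg (z z' D ^ m)` on the primitive part of
`Z^j_num(X)_ℚ` is positive definite (`NumHodge`). The class `z` is only assumed to be primitive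
*modulo numerical equivalence*, as in the problem.

In the Lean statement `A` is the ring of algebraic cycles with rational coefficients on `X` modulo
`ℓ`-adic homological equivalence, with the subspaces `gr i = A^i(X)`, the degree `deg` of zero-cycles
and the ample divisor `D` (`IsCycleRing`); for abelian varieties the conjecture `A` of Lefschetz type
(`LefschetzA`) is a theorem of Lieberman and Kleiman. `X` *specializes* to an abelian variety `Y`
over an algebraic closure of the field with `p` elements (`Specializes`). For an abelian variety `X` of
characteristic `p` there is always such a specialization: `X` is defined over a finitely generated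
field; spread it out over a scheme of finite type over the field with `p` elements; the special fibre
is isogenous, with its polarization, to the reduction `Y` of a polarized abelian variety of CM type
(Honda, Tate, Zink; `RedAV`, `IsPolar`); the cohomology does not change. If `X` is isogenous to a
product of elliptic curves and surfaces then so is `Y`. The condition is:

* the dimension `n` is at most five; or
* `Y` is isogenous to a product of a supersingular abelian variety and of powers of simple abelian
  varieties of dimension at most three, and any two of them of dimension three are isogenous or have
  CM fields with different Galois closures or Galois CM fields (`SmallFactors`).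

The spaces `C Y κ` of the rational classes of algebraic cycles on the varieties `Y` over the algebraic
closure of the field with `p` elements have the properties in `IsCycleSystemS`, `IsRosatiPositive` and
`AreTate`, all of which are known theorems (Tate, Lefschetz, Markman, Ramón Marí, Weil). No conjecture
is assumed.

The proof: for `Y` the classes which are not zero are positive
(`Pool.Agent.Results.MP_361a6f_ag.DimensionFiveAndSurfaces`). A class on `X` which is primitive modulo
numerical equivalence is the sum of a class which is primitive modulo homological equivalence and of
`D y` with `y` numerically equivalent to zero (`numHodge_of_hom`); if `a` is a primitive class of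
codimension `j` on `X` then the positivity on `Y` says that `a a D ^ m - q D ^ n` specializes to zero,
for a rational number `q` with the sign `(-1) ^ j`; as the specialization of cycles is injective
modulo homological equivalence, `deg (a a D ^ m) = q deg (D ^ n)`.
-/

set_option autoImplicit false

universe u

namespace Pool.Agent.Results.MP_c0b458_ag.EveryFieldDimensionFive

open Module Pool.Agent.W495.TA Pool.Agent.W547.KB Pool.Agent.TH117.PO Pool.Agent.TH117.BL
  Pool.Agent.Y137.HS Pool.Agent.Y137.HD Pool.Agent.L7h85.HN

/-- **The numerical Hodge standard conjecture for abelian varieties of dimension at most five and for
all products of elliptic curves and abelian surfaces, over all fields of characteristic `p`.** -/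
theorem result (p : ℕ) [Fact p.Prime] (ν : PadicAlgCl p ≃+* ℂ) (Ω : Type) [Field Ω]
    [IsAlgClosed Ω] [CharZero Ω]
    (C : (Y : RedAV p ν) → (κ : Type) → ((TM Ω Y) [⋀^κ]→ₗ[Ω] Ω) → Prop)
    (hC : IsCycleSystemS Ω C) (hR : IsRosatiPositive Ω C) (hT : AreTate Ω C)
    {A : Type u} [CommRing A] [Algebra ℚ A] (n : ℕ) (gr : ℕ → Submodule ℚ A) (deg : A →ₗ[ℚ] ℚ)
    (D : A) (hX : IsCycleRing n gr deg D) (hA : LefschetzA n gr D) (Y : RedAV p ν)
    (hY : n ≤ 5 ∨ ∃ Z : RedAV p ν, SmallFactors Z ∧ IsPowersTimesSupersingular Z Y)
    (α : Y.X.H1) (hα : IsPolar Y.X α) (sp : ∀ r : ℕ, A → Form Ω Y r)
    (hsp : Specializes C n gr D Y α sp) : NumHodge n gr deg D :=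
  numHodge_small hC hR hT hX hA hY hα hsp

end Pool.Agent.Results.MP_c0b458_ag.EveryFieldDimensionFive
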