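import Pool.Agent.L7h85.HN.Mix

/-!
# The numerical Hodge standard conjecture over all fields for products of independent abelian varieties,
one of prime dimension or with relations of rank one, and the others of dimension at most five

Let `k` be any field of characteristic `p` and `X` an abelian variety over `k` with a polarization
`D`, of any dimension `n`. `X` specializes to an abelian variety `Y` over an algebraic closure of the
field with `p` elements. We prove the numerical Hodge standard conjecture for `X` and `D` in the
following cases, in which there are exotic Tate classes in arbitrarily large codimensions on `Y`: for
all `2 j + m = n` the form `(-1) ^ j deg (z z' D ^ m)` on the primitive part of `Z^j_num(X)_ℚ` is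
positive definite (`NumHodge`). The class `z` is only assumed to be primitive *modulo numerical
equivalence*, as in the problem.

**Theorem.** Let `Y` be isogenous to a product of powers of the factors of `Z` and of a supersingular
abelian variety (`IsPowersTimesSupersingular Z Y`). The numerical Hodge standard conjecture holds for
`X` in each of the following cases.

* The CM fields of any two factors of `Z` are *independent* (some automorphism of `ℂ` is the identity
  on the one and the complex conjugation on the other, for all embeddings), one of the factors has
  **prime dimension**, and the other factors have dimension at most five. (The number of the
  factors and their exponents in `Y` are arbitrary.)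
* More generally it suffices that the multiplicative relations between the Frobenius eigenvalues of
  the special factor, modulo pairs of complex conjugate eigenvalues, form a group of rank at most one
  (`HasRankOneRelations (oneFactor Z k)`).
* The relations between the Frobenius eigenvalues of `Z`, modulo pairs of complex conjugate
  eigenvalues, form a group of rank at most one (`HasRankOneRelations Z`).

**The variety `X`.** `A` is the ring of algebraic cycles with rational coefficients on `X` modulo
`ℓ`-adic homological equivalence, with the subspaces `gr i = A^i(X)`, the degree `deg` of zero-cycles
and the ample divisor `D` (`IsCycleRing`); for abelian varieties the conjecture `A` of Lefschetz type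
(`LefschetzA`) is a theorem of Lieberman and Kleiman. `X` *specializes* to an abelian variety `Y`
over an algebraic closure of the field with `p` elements (`Specializes`). For an abelian variety `X` of
characteristic `p` there is always such a specialization: `X` is defined over a finitely generated
field; spread it out over a scheme of finite type over the field with `p` elements; the special fibre
is isogenous, with its polarization, to the reduction `Y` of a polarized abelian variety of CM type
(Honda, Tate, Zink; `RedAV`, `IsPolar`); the cohomology does not change.

**Compatible systems** (`IsCompatible Ω C`). `Ω l` is an algebraically closed field containing the
field of `l`-adic numbers, for all prime numbers `l`; `C Y κ` is the set of the families `(z l)` of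
the classes of the algebraic cycles of `Y` in all these cohomology theories (l-adic for `l ≠ p`,
crystalline for `l = p`, compared with the cohomology of the lifting of `Y`). The assumed properties
are theorems for the system of the classes of all algebraic cycles (formal properties, Lefschetz,
Markman, Tate; and `mixed`: the intersection number with a rational Hodge class of the lifting is in
the field of `l`-adic numbers, by Deligne, Ogus, Blasius, Wintenberger for `l = p`);
`IsRosatiPositive` is the positivity of the Rosati involution (Weil) and `AreTate` says that the classes
of cycles are Tate classes. No conjecture is assumed.

For finite fields, the last case and the powers of one factor of prime dimension are in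
`Pool.Agent.Results.MP_ffcd14_ag.QuadraticRelations`, whose method (the product formula for the
Hilbert symbol) gives the positivity for `Y` if all relations are products of elementary ones (between
at most two eigenvalues, or for varieties of dimension at most five) and of relations invariant
over one imaginary quadratic field.

The proof of the first two cases: the slopes of the Frobenius eigenvalues are odd functions on the
sets of embeddings; there are no nonzero equivariant maps between the spaces of odd functions for
different factors, so the part of a relation belonging to a factor is a relation (`isRel_part`); the
part of the special factor is a product of pairs and of relations over an imaginary quadratic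
field. From `Y` to `X`: a class on `X` which is primitive modulo numerical equivalence is the sum
of a class which is primitive modulo homological equivalence and of `D y` with `y` numerically
equivalent to zero; if `a` is a primitive class of codimension `j` on `X` and `deg (a b) ≠ 0` for a
class `b` then the specialization of `a` is not numerically equivalent to zero; the positivity on `Y`
says that `a a D ^ m - q D ^ n` specializes to zero, for a rational number `q` with the sign
`(-1) ^ j`; as the specialization of cycles is injective modulo homological equivalence,
`deg (a a D ^ m) = q deg (D ^ n)`.
-/

set_option autoImplicit false

universe u

namespace Pool.Agent.Results.MP_c0b458_ag.IndependentFactors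

open NumberField Module
open Pool.Agent.W495.TA Pool.Agent.W547.KB Pool.Agent.TH117.PO Pool.Agent.TH117.BL
  Pool.Agent.N202.QR Pool.Agent.Y137.HD Pool.Agent.L7h85.HN

/-- **The numerical Hodge standard conjecture over all fields of characteristic `p`**, for products of
powers of an abelian variety of prime dimension and of abelian varieties of dimension at most five,
with independent CM fields, and of supersingular ones; for relations of rank one between the Frobenius
eigenvalues. -/
theorem result {p : ℕ} [Fact p.Prime] {ν : PadicAlgCl p ≃+* ℂ} {Ω : Nat.Primes → Type}
    [∀ l, Field (Ω l)] [∀ l, CharZero (Ω l)] [∀ l : Nat.Primes, Algebra ℚ_[(l : ℕ)] (Ω l)]
    [∀ l, IsAlgClosed (Ω l)] {C : (Y : RedAV p ν) → (κ : Type) → FCl Ω Y κ → Prop}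
    (hC : IsCompatible Ω C) (l : Nat.Primes) (hR : IsRosatiPositive (Ω l) (atPrime C l))
    (hT : AreTate (Ω l) (atPrime C l))
    {A : Type u} [CommRing A] [Algebra ℚ A] (n : ℕ) (gr : ℕ → Submodule ℚ A) (deg : A →ₗ[ℚ] ℚ)
    (D : A) (hX : IsCycleRing n gr deg D) (hA : LefschetzA n gr D) (Y : RedAV p ν)
    (α : Y.X.H1) (hα : IsPolar Y.X α) (sp : ∀ r : ℕ, A → Form (Ω l) Y r)
    (hsp : Specializes (atPrime C l) n gr D Y α sp) (Z : RedAV p ν)
    (hYZ : IsPowersTimesSupersingular Z Y)
    (hZ : (∃ k : Z.X.I, IsIndependent Z k ∧
        ((∃ g : ℕ, g.Prime ∧ finrank ℚ (Z.X.factor k).E = 2 * g) ∨
          HasRankOneRelations (oneFactor Z k))) ∨
      HasRankOneRelations Z) :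
    NumHodge n gr deg D := by
  refine numHodge_of_hodgeType hX hA ?_ hα hsp
  rcases hZ with ⟨k, hk, h⟩ | h
  · exact hodge_independent hC l hR hT hk h.symm hYZ
  · exact hodge_rank_one hC l hR hT h hYZ

end Pool.Agent.Results.MP_c0b458_ag.IndependentFactors
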