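import Pool.Agent.L7h85.SG.Fin
import Pool.Agent.L7h85.SG.Hdm
import Pool.Agent.L7h85.SG.Rnk

/-!
# A zero-one law for the signatures of algebraic cycles on the powers of an abelian variety

Let `X` be an abelian variety of dimension `d` over any field, with a polarization `D`; more generally
any smooth projective variety with an ample divisor `D` for which the hard Lefschetz theorem and the standard
conjecture `B` of Lefschetz type hold (both are theorems for abelian varieties). The powers `X ^ n` are
polarized by the sum of the pull-backs of `D`. Let

* `r n` be the rank of the group of the cycles of the middle codimension `(n + 1) d` on `X ^ (2 n + 2)`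
  modulo numerical equivalence,
* `sig_j (X ^ (2 n + 2))` the signature of the form `⟨z, z'⟩ = (-1) ^ j z z' D ^ (2 (n + 1) d - 2 j)` on
  the primitive cycles of codimension `j ≤ (n + 1) d`, and `S n` the sum of these signatures.

If the numerical Hodge standard conjecture holds for `X ^ (2 n + 2)`, then `S n = r n` by the Lefschetz
decomposition. We prove that, without any assumption, `0 ≤ S n ≤ r n` and `|sig_j (X ^ (2 n + 2))| ≤ 2 S n` for all
`j`, and the following law. For every `m`

* either `S m = r m`, and the numerical Hodge standard conjecture holds for `X ^ (m + 1)` and for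
  `X ^ (2 m + 2)`,
* or `S n ≤ (n + 2) ^ (b ^ 2) (1 - b ^ (- 2 (m + 1))) ^ ⌊n / (m + 1)⌋ r n` for **all** `n`, where `b` is the
  total Betti number of `X`: **all** the signatures are exponentially small compared with the
  ranks of the groups of cycles.

So the quotient `S n / r n` is equal to one for all `n`, and the numerical Hodge standard conjecture
holds for all powers of `X`; or it tends to zero exponentially fast. It is enough to find, for each
`m`, one `n` for which the cycles on `X ^ (2 n + 2)` with positive squares are slightly, by an exponentially
small proportion, more numerous than those with negative squares.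

## The proof

For a self-adjoint algebraic idempotent `e` on a polarized variety `P` let `s (P, e)` be the
signature of the form `tr (x * y)`, with the star operator, on the algebraic classes of the middle
codimension in the image of `e`. One has `|s (P, e)| ≤ rank e`. For `P = Y × Y` and `e = 1` it is
nonnegative (it is the signature of the form `tr (u uᵗ)` on the algebra of the correspondences of `Y`
which preserve the degrees) and equal to the sum of the signatures of the primitive parts. If `z` is a
class with `z² < 0` of the middle codimension on `Q = Y × Y` for `Y = X ^ (m + 1)`, and `π` the orthogonal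
projection to the complement of `z`, then `s (P × Q, e × π) = s (P × Q, e × 1) + s (P, e)`. By
induction `0 ≤ s (C × Q ^ n, 1) ≤ s (C × Q ^ n, 1 × π × ... × π) ≤ dim C (dim Q - 1) ^ n`, where
`dim` is the dimension of the cohomology. On the other hand `r n ≥ b ^ (2 n + 2) / (n + 2) ^ (b ^ 2)`, as the algebra
of the endomorphisms of the numerical motive of `X ^ (n + 1)` contains its commutant.
-/

set_option autoImplicit false

open CategoryTheory AlgebraicGeometry CategoryTheory.Limits

universe u v

namespace Pool.Agent.Results.MP_c0b458_ag.SignatureLaw

open Pool.Agent.H914 Pool.Agent.H914.VarClass Pool.Agent.H914.VarClass.Obj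
  Pool.Agent.H914.WeilCohomology Pool.Agent.H281R3.HT Pool.Agent.W552 Pool.Agent.W539.Ker Module
  Pool.Agent.L7h85.SG

variable {k : Type u} [Field k] {𝒱 : VarClass k} {ops : CycleOps 𝒱}

/-- **The zero-one law for the signatures.** Let `P` be a polarized variety with the hard Lefschetz
theorem, the standard conjecture `B` and `deg D ^ dim > 0` (for example an abelian variety), with the total
Betti number `b`. Let `S n` be the sum of the signatures of the forms on the primitive cycles on
`P ^ (2 n + 2)`, and `r n` the rank of the group of cycles of the middle codimension modulo numerical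
equivalence. Then `0 ≤ S n ≤ r n`, all signatures are at most `2 S n`, and for every `m` either
`S m = r m` and the numerical Hodge standard conjecture holds for `P ^ (m + 1)` and `P ^ (2 m + 2)`, or `S n` is
exponentially small compared with `r n`, for all `n`. -/
theorem result (W : WeilCohomology.{u, v} ops) [IsAlgClosed W.K] (P : Polarized 𝒱)
    (hD : P.X.IsCyc 1 P.D) (hHL : HardLefschetz W P.X P.D) (hB : LefschetzB W P.X P.D)
    (hdeg : 0 < P.X.V.degCycle (divPow ops P.D P.X.dim P.X.V.fundCycle)) :
    ∃ S r : ℕ → ℤ,
      (∀ n, S n = ∑ j ∈ Finset.range ((n + 1) * P.X.dim + 1),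
        sig W ((polPow ops P n).prod ops (polPow ops P n)).X
          ((polPow ops P n).prod ops (polPow ops P n)).D j) ∧
      (∀ n, r n = Pool.Agent.W534.numRank ops
        ((polPow ops P n).prod ops (polPow ops P n)).X ((n + 1) * P.X.dim)) ∧
      (∀ n, 0 < r n ∧ 0 ≤ S n ∧ S n ≤ r n) ∧
      (∀ n, ∀ j ≤ (n + 1) * P.X.dim,
        |sig W ((polPow ops P n).prod ops (polPow ops P n)).X
          ((polPow ops P n).prod ops (polPow ops P n)).D j| ≤ 2 * S n) ∧
      ∀ m : ℕ,
        (S m = r m ∧
          NumHodge ops (polPow ops P m).X (polPow ops P m).D ∧
          NumHodge ops ((polPow ops P m).prod ops (polPow ops P m)).X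
            ((polPow ops P m).prod ops (polPow ops P m)).D) ∨
        ∀ n : ℕ, (S n : ℝ) ≤ (n + 2 : ℝ) ^ (finrank W.K (W.H P.X) ^ 2) *
          (1 - 1 / (finrank W.K (W.H P.X) : ℝ) ^ (2 * (m + 1))) ^ (n / (m + 1)) * r n := by
  obtain ⟨f, G⟩ := exists_gd hD hHL hB
  have hpos : ∃ r : ℚ, 0 < r ∧ (⟨P.X, P.D, f, G⟩ : PV W).b 1 1 = (r : W.K) :=
    ⟨_, mul_pos (inv_pos.2 (by exact_mod_cast Nat.factorial_pos _)) hdeg, G.fr.bf_one⟩
  exact sig_law (hGD := Pool.Agent.L7h89.SG.s_GDP W) (s_HDM W) (s_RNK W)
    ⟨P.X, P.D, f, G⟩ hpos

end Pool.Agent.Results.MP_c0b458_ag.SignatureLaw
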